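import Mathlib
import Pool.Agent.V11254.Wqo

/-!
# Logics of finite direct products of ordinal frames have the finite model property
-/

set_option autoImplicit false

namespace Pool.Agent.Results.MP_d97c10_lc.FiniteModelProperty

open Set

universe u

/-- Unimodal formulas. -/
inductive Fml : Type
  | var : ℕ → Fml
  | bot : Fml
  | imp : Fml → Fml → Fml
  | box : Fml → Fml

/-- Truth of a formula at a point of the frame `(W, R)` under the valuation `V`. -/
def Holds {W : Type u} (R : W → W → Prop) (V : ℕ → Set W) : Fml → W → Prop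
  | .var n, x => x ∈ V n
  | .bot, _ => False
  | .imp φ ψ, x => Holds R V φ x → Holds R V ψ x
  | .box φ, x => ∀ y, R x y → Holds R V φ y

/-- Validity of a formula in the frame `(W, R)`. -/
def Valid {W : Type u} (R : W → W → Prop) (φ : Fml) : Prop :=
  ∀ (V : ℕ → Set W) (x : W), Holds R V φ x

/-- The logic of the frame `(W, R)`. -/
def Log {W : Type u} (R : W → W → Prop) : Set Fml := {φ | Valid R φ}

/-- The finite model property: each formula outside the logic is refuted in some finite frame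
which validates the logic. -/
def HasFMP (L : Set Fml) : Prop :=
  ∀ φ, φ ∉ L → ∃ (F : Type) (_ : Finite F) (_ : Nonempty F) (S : F → F → Prop),
    (∀ ψ ∈ L, Valid S ψ) ∧ ¬ Valid S φ

/-- A bound on the variables of a formula. -/
def Fml.bound : Fml → ℕ
  | .var n => n + 1
  | .bot => 0
  | .imp φ ψ => max φ.bound ψ.bound
  | .box φ => φ.bound

/-- Truth is preserved along bounded morphisms. -/
theorem holds_iff {W : Type u} {F : Type} (R : W → W → Prop) (S : F → F → Prop) (g : W → F)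
    (h1 : ∀ x y, R x y → S (g x) (g y)) (h2 : ∀ x t, S (g x) t → ∃ y, R x y ∧ g y = t)
    (V : ℕ → Set W) (V' : ℕ → Set F) :
    ∀ (φ : Fml), (∀ n < φ.bound, ∀ x, x ∈ V n ↔ g x ∈ V' n) →
      ∀ x, Holds R V φ x ↔ Holds S V' φ (g x)
  | .var n, h, x => h n (Nat.lt_succ_self n) x
  | .bot, _, _ => Iff.rfl
  | .imp φ ψ, h, x => by
    have e1 := holds_iff R S g h1 h2 V V' φ (fun n hn => h n (lt_of_lt_of_le hn (le_max_left _ _))) x
    have e2 := holds_iff R S g h1 h2 V V' ψ (fun n hn => h n (lt_of_lt_of_le hn (le_max_right _ _))) x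
    simp only [Holds, e1, e2]
  | .box φ, h, x => by
    have e := holds_iff R S g h1 h2 V V' φ h
    simp only [Holds]
    constructor
    · intro H t ht
      obtain ⟨y, hy, rfl⟩ := h2 x t ht
      exact (e y).1 (H y hy)
    · intro H y hy
      exact (e y).2 (H _ (h1 x y hy))

/-- General form: frames compatible with a well-quasi-order. -/
theorem hasFMP_of_wqo {W : Type u} [Preorder W]
    (hw : WellQuasiOrdered ((· ≤ ·) : W → W → Prop))
    (R : W → W → Prop) (h1 : ∀ x y, R x y → x ≤ y)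
    (h2 : ∀ x x' y, x ≤ x' → R x' y → R x y) : HasFMP (Log R) := by
  intro φ hφ
  have hφ' : ∃ V : ℕ → Set W, ∃ x, ¬ Holds R V φ x := by
    simpa [Log, Valid] using hφ
  obtain ⟨V, x₀, hx₀⟩ := hφ'
  obtain ⟨τ, hτ, f, hf⟩ := V11254.exists_tuned hw R h1 h2
    (κ := ULift.{u} (Set (Fin φ.bound))) (fun x => ⟨{n | x ∈ V n}⟩)
  obtain ⟨n, ⟨e⟩⟩ := Finite.exists_equiv_fin τ
  let g : W → Set.range (fun x => e (f x)) := fun x => ⟨e (f x), x, rfl⟩
  have hg : ∀ x y, g x = g y ↔ f x = f y := by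
    intro x y
    simp [g, Subtype.ext_iff]
  have hgs : ∀ t, ∃ x, g x = t := by
    rintro ⟨_, x, rfl⟩
    exact ⟨x, rfl⟩
  let S : Set.range (fun x => e (f x)) → Set.range (fun x => e (f x)) → Prop :=
    fun t t' => ∃ x y, g x = t ∧ g y = t' ∧ R x y
  have hS1 : ∀ x y, R x y → S (g x) (g y) := fun x y h => ⟨x, y, rfl, rfl, h⟩
  have hS2 : ∀ x t, S (g x) t → ∃ y, R x y ∧ g y = t := by
    rintro x t ⟨x', y', hx', rfl, h⟩
    obtain ⟨w, hw1, hw2⟩ := (hf x' x ((hg _ _).1 hx')).2 y' h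
    exact ⟨w, hw1, (hg _ _).2 hw2⟩
  refine ⟨_, inferInstance, ⟨g x₀⟩, S, ?_, ?_⟩
  · intro ψ hψ V' t
    obtain ⟨x, rfl⟩ := hgs t
    exact (holds_iff R S g hS1 hS2 (fun n => g ⁻¹' V' n) V' ψ (fun n _ x => Iff.rfl) x).1
      (hψ _ x)
  · intro hval
    refine hx₀ ((holds_iff R S g hS1 hS2 V (fun n => g '' V n) φ ?_ x₀).2 (hval _ _))
    intro n hn x
    constructor
    · exact fun hx => mem_image_of_mem _ hx
    · rintro ⟨y, hy, hyx⟩
      have h := (hf y x ((hg _ _).1 hyx)).1
      have h3 : {m : Fin φ.bound | y ∈ V m} = {m : Fin φ.bound | x ∈ V m} := ULift.up.inj h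
      have h4 : (⟨n, hn⟩ : Fin φ.bound) ∈ {m : Fin φ.bound | y ∈ V m} := hy
      rw [h3] at h4
      exact h4

/-- For every finite family of nonzero ordinals, the logics of the direct products of the frames
`(α i, ≤)` and of the frames `(α i, <)` have the finite model property. -/
theorem result (k : ℕ) (_ : 0 < k) (α : Fin k → Ordinal.{u}) (_ : ∀ i, 0 < α i) :
    HasFMP (Log (fun x y : (∀ i, Set.Iio (α i)) => ∀ i, x i ≤ y i)) ∧
      HasFMP (Log (fun x y : (∀ i, Set.Iio (α i)) => ∀ i, x i < y i)) := by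
  have hw : WellQuasiOrdered ((· ≤ ·) : (∀ i, Set.Iio (α i)) → (∀ i, Set.Iio (α i)) → Prop) :=
    wellQuasiOrdered_le
  refine ⟨hasFMP_of_wqo hw _ (fun x y h => h) fun x x' y h h' i => (h i).trans (h' i),
    hasFMP_of_wqo hw _ (fun x y h i => (h i).le) fun x x' y h h' i =>
      (h i).trans_lt (h' i)⟩

end Pool.Agent.Results.MP_d97c10_lc.FiniteModelProperty
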