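import Mathlib
import Pool.Agent.V11254.Wqo

/-!
# Modal algebras of finite direct products of ordinal frames are locally finite

The proof works for every relation compatible with a well-quasi-order, see
`Pool.Agent.V11254.exists_tuned`.
-/

set_option autoImplicit false

namespace Pool.Agent.Results.MP_d97c10_lc.LocallyFinite

open Set

universe u

/-- The operator `◇ X = {w | ∃ v ∈ X, R w v}` of the modal algebra of the frame `(W, R)`. -/
def dia {W : Type u} (R : W → W → Prop) (X : Set W) : Set W := {w | ∃ v ∈ X, R w v}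

/-- `S` is (the underlying set of) a subalgebra of the modal algebra `Alg(W, R)`. -/
structure IsSubalgebra {W : Type u} (R : W → W → Prop) (S : Set (Set W)) : Prop where
  univ_mem : univ ∈ S
  compl_mem : ∀ X ∈ S, Xᶜ ∈ S
  union_mem : ∀ X ∈ S, ∀ Y ∈ S, X ∪ Y ∈ S
  dia_mem : ∀ X ∈ S, dia R X ∈ S

/-- The subalgebra of `Alg(W, R)` generated by `G`. -/
def generated {W : Type u} (R : W → W → Prop) (G : Set (Set W)) : Set (Set W) :=
  ⋂₀ {S | IsSubalgebra R S ∧ G ⊆ S}

/-- `Alg(W, R)` is locally finite: finitely generated subalgebras are finite. -/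
def AlgLocallyFinite {W : Type u} (R : W → W → Prop) : Prop :=
  ∀ G : Set (Set W), G.Finite → (generated R G).Finite

/-- General form: frames compatible with a well-quasi-order. -/
theorem locallyFinite_of_wqo {W : Type u} [Preorder W]
    (hw : WellQuasiOrdered ((· ≤ ·) : W → W → Prop))
    (R : W → W → Prop) (h1 : ∀ x y, R x y → x ≤ y)
    (h2 : ∀ x x' y, x ≤ x' → R x' y → R x y) : AlgLocallyFinite R := by
  intro G hG
  have : Finite G := hG
  obtain ⟨τ, hτ, f, hf⟩ := V11254.exists_tuned hw R h1 h2 (κ := Set G)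
    (fun x => {g : G | x ∈ g.1})
  have hsub : IsSubalgebra R (Set.range fun T : Set τ => f ⁻¹' T) := by
    refine ⟨⟨univ, by simp⟩, ?_, ?_, ?_⟩
    · rintro _ ⟨T, rfl⟩
      exact ⟨Tᶜ, rfl⟩
    · rintro _ ⟨T, rfl⟩ _ ⟨T', rfl⟩
      exact ⟨T ∪ T', rfl⟩
    · rintro _ ⟨T, rfl⟩
      refine ⟨f '' dia R (f ⁻¹' T), ?_⟩
      apply subset_antisymm
      · rintro y ⟨x, ⟨v, hv, hxv⟩, hxy⟩
        obtain ⟨w, hyw, hwv⟩ := (hf x y hxy).2 v hxv
        exact ⟨w, by rw [mem_preimage, hwv]; exact hv, hyw⟩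
      · exact subset_preimage_image f _
  have hGS : G ⊆ Set.range fun T : Set τ => f ⁻¹' T := by
    intro g hg
    refine ⟨f '' g, ?_⟩
    apply subset_antisymm
    · rintro y ⟨x, hx, hxy⟩
      have h := (hf x y hxy).1
      have : (⟨g, hg⟩ : G) ∈ {g : G | x ∈ g.1} := hx
      have h' : (⟨g, hg⟩ : G) ∈ {g : G | y ∈ g.1} := h ▸ this
      exact h'
    · exact subset_preimage_image f _
  exact (Set.finite_range _).subset (sInter_subset_of_mem ⟨hsub, hGS⟩)

/-- For every finite family of nonzero ordinals, the modal algebras of the direct products of the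
frames `(α i, ≤)` and of the frames `(α i, <)` are locally finite. -/
theorem result (k : ℕ) (_ : 0 < k) (α : Fin k → Ordinal.{u}) (_ : ∀ i, 0 < α i) :
    AlgLocallyFinite (fun x y : (∀ i, Set.Iio (α i)) => ∀ i, x i ≤ y i) ∧
      AlgLocallyFinite (fun x y : (∀ i, Set.Iio (α i)) => ∀ i, x i < y i) := by
  have hw : WellQuasiOrdered ((· ≤ ·) : (∀ i, Set.Iio (α i)) → (∀ i, Set.Iio (α i)) → Prop) :=
    wellQuasiOrdered_le
  refine ⟨locallyFinite_of_wqo hw _ (fun x y h => h) fun x x' y h h' i => (h i).trans (h' i),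
    locallyFinite_of_wqo hw _ (fun x y h i => (h i).le) fun x x' y h h' i =>
      (h i).trans_lt (h' i)⟩

end Pool.Agent.Results.MP_d97c10_lc.LocallyFinite
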